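import Pool.Agent.Q271.UL.Arrange

set_option autoImplicit false

/-! # MP_0aa2e9_nt: the dimension of the uniform Littlewood exceptional set -/

namespace Pool.Agent.Results.MP_0aa2e9_nt.AtLeastTwoThirds

open Q271.UL

/-- `‖t‖`, the distance from `t` to the nearest integer. -/
noncomputable def distInt (t : ℝ) : ℝ := |t - round t|

/-- `m_Q(ξ, ζ)`, the minimum of `‖q ξ‖ ‖q ζ‖` over `q = 1, ..., Q`. -/
noncomputable def m (Q : ℕ) (ξ ζ : ℝ) : ℝ :=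
  sInf ((fun q : ℕ => distInt (q * ξ) * distInt (q * ζ)) '' Set.Icc 1 Q)

/-- `F(ξ, ζ)`, the upper limit of `Q m_Q(ξ, ζ)`, an element of `[0, ∞]`. -/
noncomputable def F (ξ ζ : ℝ) : ENNReal :=
  Filter.limsup (fun Q : ℕ => ENNReal.ofReal (Q * m Q ξ ζ)) Filter.atTop

/-- `Θ`, the set of points of the Euclidean plane with `F > 1 / 188`. -/
def Theta : Set (EuclideanSpace ℝ (Fin 2)) :=
  {x | ENNReal.ofReal (1 / 188) < F (x 0) (x 1)}

/-- **Full answer to Q1**: `dim_H Θ ≥ 2 / 3`. -/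
theorem result : ENNReal.ofReal (2 / 3) ≤ dimH Theta := by
  let L : EuclideanSpace ℝ (Fin 2) ≃L[ℝ] ℝ × ℝ :=
    (EuclideanSpace.equiv (Fin 2) ℝ).trans (ContinuousLinearEquiv.finTwoArrow ℝ ℝ)
  have h : L ⁻¹' (Metric.ball ((0, 0) : ℝ × ℝ) 1 ∩ ⋂ k, W k) ⊆ Theta := by
    intro x hx
    have hx' : ((x 0, x 1) : ℝ × ℝ) ∈ ⋂ k, W k := hx.2
    have hfreq : ∃ᶠ Q : ℕ in Filter.atTop,
        ENNReal.ofReal (1 / 50) ≤ ENNReal.ofReal (Q * m Q (x 0) (x 1)) := by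
      rw [Filter.frequently_atTop]
      intro k
      obtain ⟨Q, hkQ, hQ1, hQ⟩ := Set.mem_iInter.1 hx' k
      refine ⟨Q, hkQ, ENNReal.ofReal_le_ofReal ?_⟩
      have hQpos : (0:ℝ) < Q := by exact_mod_cast hQ1
      have h1 : 1 / 50 / (Q:ℝ) ≤ m Q (x 0) (x 1) := by
        apply le_csInf
        · exact ⟨_, ⟨1, ⟨le_rfl, hQ1⟩, rfl⟩⟩
        · rintro _ ⟨q, ⟨hq1, hqQ⟩, rfl⟩
          exact hQ q hq1 hqQ
      rw [div_le_iff₀ hQpos] at h1
      linarith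
    have h1 : ENNReal.ofReal (1 / 50) ≤ F (x 0) (x 1) := Filter.le_limsup_of_frequently_le hfreq
    refine lt_of_lt_of_le ?_ h1
    rw [ENNReal.ofReal_lt_ofReal_iff (by norm_num)]
    norm_num
  have h2 := Q271.Tree.le_dimH (by norm_num : (0:ℝ) < 2 / 3) (by norm_num : (0:ℝ) ≤ 6)
    (Metric.isOpen_ball) ⟨((0, 0) : ℝ × ℝ), Metric.mem_ball_self one_pos⟩ data
  refine h2.trans ?_
  rw [← L.dimH_preimage]
  exact dimH_mono h

end Pool.Agent.Results.MP_0aa2e9_nt.AtLeastTwoThirds
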